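import Pool.Agent.Y237.SA.Fin

/-!
# MP_dd1803_nt: Zilber-Pink for almost all `S`-unit translates of an arbitrary subvariety of a
semiabelian variety whose abelian part is an elliptic curve

Let `E : y² = x³ + a x + b` be an elliptic curve over `ℂ` and `Q_1, …, Q_k` points of `E`, such that
the `Q_i ≠ O` are linearly independent modulo torsion. Let `G` be the extension of `E` by `G_m^k`
with the classes `Q_i - O` in `Pic^0(E)`. For `Q_i = O` this is the split semiabelian variety
`E × G_m^k`; if all `Q_i` are different from `O` then `G` has no split isogeny quotient. Every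
semiabelian variety over `ℂ` with an abelian part of dimension one is isogenous to such a `G`.

**Coordinates.** The points of `G` are the pairs `(P, u)` with `P ∈ E`, `u ∈ (ℂ^×)^k`. The
coordinates `u_i` are algebraic outside the fibres over `O` and over the `Q_i`; in these fibres a
trivialisation of the fibre is used. The group law is `(P, u) (P', u') = (P + P', u u' c(P, P'))`,
where `c(P, P')_i` is the value at `Q_i` of the function with divisor `(P) + (P') - (P + P') - (O)`,
normalised at `O` (`cocycle`, given by the chord-tangent formulas, and used only for torsion points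
`P`, `P'`, where it is neither `0` nor infinite).

**Special subvarieties** of `G` are the torsion cosets. Because of the independence of the `Q_i`
they are (1) the sets `{(P, u) | u ^ c = η ^ c for all c in M}` for a torsion point `(P, η)` of `G`,
of dimension `k - rank M`, and (2) the sets `{(P, u) ∈ G | u ^ c = η ^ c for all c in M}`, of
dimension `k + 1 - rank M`, where the `η_i` are roots of unity and `c_i = 0` for all `c` in `M` if
`Q_i ≠ O`.

**Theorem.** Let `V` be an arbitrary algebraic subset of `G` of dimension `m`, without component of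
dimension `m` in the fibre over a torsion point of `E`. There is a number `K`, depending only on
`V`, such that for every set of `N` prime numbers `p_i` the following holds. Consider the translates
`g V` by the elements `g_j = ∏_i p_i ^ e_ij`, `|e_ij| ≤ R`, of the torus. The number of those `g`,
for which `g V` has an atypical intersection with some torsion coset, is at most
`c (2 R + 1) ^ (k N + k - 1 - t)` if `K t < N`. So for `N > K k` it holds for 100 % of the `g` that
`g V` has no atypical subvariety at all. The dimension of `V` is arbitrary, `E`, the `Q_i` and `V`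
are defined over `ℂ`, and the primes may be small.

The proof uses that the torsion points of `E` are discrete with respect to every nonarchimedean
absolute value `v`, that the coordinates of the torsion points of `G` are bounded with respect to
`v`, and a uniform version of the argument for tori (`AlmostAllSUnitTranslates` of `MP_b7926e_nt`).
-/

set_option autoImplicit false

namespace Pool.Agent.Results.MP_dd1803_nt.EllipticExtensions

open MvPolynomial WeierstrassCurve
open Pool.Agent.Results.MP_b7926e_nt.NoAtypical (coset idealOf dim)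

/-- The Weierstrass curve `y² = x³ + a x + b`. -/
def curve (a b : ℂ) : WeierstrassCurve ℂ := ⟨0, 0, 0, a, b⟩

/-- The group of its points. -/
abbrev E (a b : ℂ) : Type := (curve a b).toAffine.Point

variable {a b : ℂ} {k : ℕ}

open Classical in
/-- The value at `Q` of the function on `E` with divisor `(P) + (P') - (P + P') - (O)` and leading
coefficient `1` at `O`. For `P + P' ≠ O` it is the equation of the line through `P` and `P'`, divided
by `X - x(P + P')`, and for `P + P' = O` it is `X - x(P)`. For `Q = O`, `P = O` or `P' = O` it is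
`1`. -/
noncomputable def cocycle (Q P P' : E a b) : ℂ :=
  match Q, P, P' with
  | .some X Y _, .some x y _, .some x' y' _ =>
    if x = x' ∧ y = (curve a b).toAffine.negY x' y' then X - x
    else (Y - y - (curve a b).toAffine.slope x x' y y' * (X - x)) /
      (X - (curve a b).toAffine.addX x x' ((curve a b).toAffine.slope x x' y y'))
  | _, _, _ => 1

/-- The group law of the extension of `E` by `G_m^k` with classes `Q_i - O`. -/
noncomputable def mul (Q : Fin k → E a b) (g h : E a b × (Fin k → ℂ)) : E a b × (Fin k → ℂ) :=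
  (g.1 + h.1, fun i => g.2 i * h.2 i * cocycle (Q i) g.1 h.1)

/-- The powers of an element. -/
noncomputable def pow (Q : Fin k → E a b) (g : E a b × (Fin k → ℂ)) : ℕ → E a b × (Fin k → ℂ)
  | 0 => (0, 1)
  | n + 1 => mul Q g (pow Q g n)

/-- Torsion points of the extension. The torsion points over `O` are the vectors of roots of
unity. -/
def IsTorsionPoint (Q : Fin k → E a b) (g : E a b × (Fin k → ℂ)) : Prop :=
  ∃ n : ℕ, 0 < n ∧ pow Q g n = (0, 1)

/-- The translate of `V` by the element `g` of the torus. -/
def translate (g : Fin k → ℂ) (V : Set (E a b × (Fin k → ℂ))) : Set (E a b × (Fin k → ℂ)) :=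
  {h | ∃ h' ∈ V, h.1 = h'.1 ∧ ∀ i, h.2 i = g i * h'.2 i}

/-- The dimension of `V` is at most `m`: any `m + 1` of the functions `x, u_1, …, u_k` satisfy a
nontrivial algebraic relation on `V`. -/
def DimLE (m : ℕ) (V : Set (E a b × (Fin k → ℂ))) : Prop :=
  (∀ J : Finset (Fin k), J.card = m + 1 → ∃ F : MvPolynomial J ℂ, F ≠ 0 ∧
    ∀ g ∈ V, eval (fun j : J => g.2 j) F = 0) ∧
  ∀ J : Finset (Fin k), J.card = m → ∃ F : MvPolynomial (Option J) ℂ, F ≠ 0 ∧
    ∀ x y h u, ((Affine.Point.some x y h : E a b), u) ∈ V →
      eval (fun o : Option J => o.elim x fun j => u j) F = 0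

/-- The dimension of the fibre of `V` over `P` is less than `m`: any `m` of the functions
`u_1, …, u_k` satisfy a nontrivial algebraic relation on this fibre. -/
def FibreDimLT (m : ℕ) (V : Set (E a b × (Fin k → ℂ))) (P : E a b) : Prop :=
  ∀ J : Finset (Fin k), J.card = m → ∃ F : MvPolynomial J ℂ, F ≠ 0 ∧
    ∀ u, (P, u) ∈ V → eval (fun j : J => u j) F = 0

/-- `W`, regarded as a set of dimension `m`, has no atypical intersection with a torsion coset of
`G`. (1) The irreducible subsets `{P} × A` of its intersection with the torsion coset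
`{(P, u) | u ^ c = η ^ c for all c in M}`, `(P, η)` a torsion point, satisfy
`dim A ≤ m + (k - rank M) - (k + 1)`. (2) The irreducible sets `A` of affine points `(x, y, u)` of
its intersection with `{(P, u) | u ^ c = η ^ c for all c in M}`, `η_i` roots of unity, satisfy
`dim A ≤ m + (k + 1 - rank M) - (k + 1)`. -/
def NoAtypical (Q : Fin k → E a b) (m : ℕ) (W : Set (E a b × (Fin k → ℂ))) : Prop :=
  (∀ (P : E a b) (η : Fin k → ℂ), IsTorsionPoint Q (P, η) →
    ∀ (M : Submodule ℤ (Fin k → ℤ)) (A : Set (Fin k → ℂ)), A ⊆ {u | (P, u) ∈ W} →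
      A ⊆ coset M η → (idealOf A).IsPrime →
      dim A + (Module.finrank ℤ M : Cardinal) + 1 ≤ (m : Cardinal)) ∧
  ∀ η : Fin k → ℂ, IsTorsionPoint Q (0, η) →
    ∀ (M : Submodule ℤ (Fin k → ℤ)) (A : Set (Fin (k + 2) → ℂ)),
      (∀ z ∈ A, ∃ h, ((Affine.Point.some (z 0) (z 1) h : E a b), fun j => z j.succ.succ) ∈ W) →
      (∀ z ∈ A, (fun j : Fin k => z j.succ.succ) ∈ coset M η) →
      (idealOf A).IsPrime → dim A + (Module.finrank ℤ M : Cardinal) ≤ (m : Cardinal)

theorem pow_eq (Q : Fin k → E a b) (g : E a b × (Fin k → ℂ)) (n : ℕ) :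
    pow Q g n = Y237.SA.gpow Q g n := by
  have h : ∀ P P' P'' : E a b, cocycle P P' P'' = Y237.SA.miller P P' P'' := by
    intro P P' P''
    rcases P with _ | ⟨x, y, h⟩ <;> rcases P' with _ | ⟨x', y', h'⟩ <;>
      rcases P'' with _ | ⟨x'', y'', h''⟩ <;> rfl
  induction n with
  | zero => rfl
  | succ n ih =>
    change mul Q g (pow Q g n) = Y237.SA.gmul Q g (Y237.SA.gpow Q g n)
    rw [ih]
    refine Prod.ext rfl (funext fun i => ?_)
    exact congrArg (fun z => g.2 i * (Y237.SA.gpow Q g n).2 i * z)
      (h (Q i) g.1 (Y237.SA.gpow Q g n).1)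

theorem noAtypical_of {N : ℕ} {Q : Fin k → E a b} {m : ℕ} {v : Fin N → AbsoluteValue ℂ ℝ}
    {W : Set (E a b × (Fin k → ℂ))} (h : Y237.SA.NoAtW Q m v 0 W) : NoAtypical Q m W := by
  obtain ⟨h1, h2⟩ := h
  refine ⟨?_, ?_⟩
  · rintro P η ⟨n, hn, hη⟩ M A hAW hAT hA
    rw [pow_eq] at hη
    refine h1 P η 1 n hn hη (fun j => one_ne_zero) (fun i j => ?_) M A hAW ?_ hA
    · rw [Pi.one_apply, map_one, Real.log_one, abs_zero]
    · have h3 : (fun j => η j * (1 : Fin k → ℂ) j) = η := by
        funext j
        rw [Pi.one_apply, mul_one]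
      rw [h3]
      exact hAT
  · rintro η ⟨n, hn, hη⟩ M A hAW hAT hA
    rw [pow_eq] at hη
    have hη1 := Y237.SA.torsion_zero Q η hη
    have hη0 : ∀ j, η j ≠ 0 := by
      intro j h0
      have := hη1 j
      rw [h0, zero_pow hn.ne'] at this
      exact zero_ne_one this
    refine h2 η hη0 (fun i j => ?_) M A hAW hAT hA
    have h3 := congrArg (v i) (hη1 j)
    rw [map_pow, map_one] at h3
    have h4 := (pow_eq_one_iff_of_nonneg ((v i).nonneg _) hn.ne').1 h3
    rw [h4, Real.log_one, abs_zero]

/-- Zilber-Pink, with no atypical intersections, for almost all `S`-unit translates of an arbitrary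
subvariety `V` of an extension `G` of an elliptic curve by a torus. -/
theorem result (a b : ℂ) (hE : 4 * a ^ 3 + 27 * b ^ 2 ≠ 0) (k m : ℕ) (Q : Fin k → E a b)
    (hQ : ∀ c : Fin k → ℤ, (∃ n : ℕ, 0 < n ∧ n • ∑ i, c i • Q i = 0) →
      ∀ i, Q i ≠ 0 → c i = 0)
    (V : Set (E a b × (Fin k → ℂ))) (hV : DimLE m V)
    (hfib : ∀ P : E a b, (∃ n : ℕ, 0 < n ∧ n • P = 0) → FibreDimLT m V P) :
    ∃ K : ℕ, ∀ N t : ℕ, K * t < N →
      ∀ p : Fin N → ℕ, (∀ i, (p i).Prime) → Function.Injective p → ∃ c : ℕ, ∀ R : ℕ, 1 ≤ R →
        Nat.card {e : Fin N → Fin k → ℤ // (∀ i j, |e i j| ≤ R) ∧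
          ¬ NoAtypical Q m (translate (fun j => ∏ i, (p i : ℂ) ^ e i j) V)} *
            (2 * R + 1) ^ t ≤ c * (2 * R + 1) ^ (k * N + k - 1) := by
  classical
  have hQ' : ∀ i, Q i ≠ 0 → ∀ n : ℕ, 0 < n → n • Q i ≠ 0 := by
    intro i hi n hn h0
    have h1 := hQ (Pi.single i 1) ⟨n, hn, ?_⟩ i hi
    · rw [Pi.single_eq_same] at h1
      exact one_ne_zero h1
    · rw [Finset.sum_eq_single i]
      · rw [Pi.single_eq_same, one_zsmul, h0]
      · intro j _ hj
        rw [Pi.single_eq_of_ne hj, zero_zsmul]
      · intro h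
        exact absurd (Finset.mem_univ i) h
  obtain ⟨K, h⟩ := Y237.SA.general_primes (a := a) (b := b) hE Q hQ' m V hV hfib
  refine ⟨K, fun N t hN p hp hpi => ?_⟩
  obtain ⟨v, c, hc⟩ := (h N t hN).1 p hp hpi
  refine ⟨c, fun R hR => le_trans (Nat.mul_le_mul_right _ ?_) (hc R hR)⟩
  have hfin : Finite {e : Fin N → Fin k → ℤ // (∀ i j, |e i j| ≤ R) ∧
      ¬ Y237.SA.NoAtW Q m v 0 (Y237.SA.trans (fun j => ∏ i, (p i : ℂ) ^ e i j) V)} := by
    have h1 : {e : Fin N → Fin k → ℤ | ∀ i j, |e i j| ≤ R}.Finite := by
      refine (Set.finite_Icc (fun _ _ => -(R : ℤ)) (fun _ _ => (R : ℤ))).subset fun e he => ?_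
      exact ⟨fun i j => (abs_le.1 (he i j)).1, fun i j => (abs_le.1 (he i j)).2⟩
    exact (h1.subset fun e he => he.1).to_subtype
  refine Nat.card_le_card_of_injective
    (fun e => ⟨e.1, e.2.1, fun hno => e.2.2 (noAtypical_of hno)⟩) ?_
  intro e e' hee
  exact Subtype.ext (congrArg (fun z => z.1) hee)

end Pool.Agent.Results.MP_dd1803_nt.EllipticExtensions
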