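import Pool.Agent.W282.LF.Top
import Pool.Agent.W466.EM

/-!
# MP_dd1803_nt: Zilber-Pink for almost all scalings of projective sets of any dimension mapped to
split semiabelian varieties, together with Mordell-Lang

Let `E_g : y² = x³ + A_g x + B_g`, `g = 1, …, r`, be elliptic curves over the complex numbers and let
`𝔖 = ∏_g E_g^(n_g) × G_m^q` (`Amb`). The coordinates of a point `(P, u)` of `𝔖` are the numbers
`x (P_{g,i})` and `u_j` (`coords`).

Let `Y ⊆ P^N` be a complex projective algebraic set, defined by forms `G l` over a countable field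
`K ⊂ ℂ` with `A_g, B_g ∈ K`, and let `a_s / b_s` be quotients of forms of the same degree over `K`,
one for every coordinate. For nonzero numbers `c_s` let `X_c ⊆ 𝔖` be the set of all points `(P, u)`
with `x (P_{g,i}) = a_{g,i} (y) / (c_{g,i} b_{g,i} (y))` and `u_j = a_j (y) / (c_j b_j (y))` for a
point `y` of `Y` (`scaled`; the equations are written without denominators, so `X_c` is a closed
subset of `𝔖` which contains the closure of the image of `Y`; for points `y` with
`a_s (y) = b_s (y) = 0` all values of the coordinate `s` are allowed).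

Suppose that the divisors of the rational functions `a_s / b_s` on `Y` are in general position: no
point of `Y` lies on `m + 1` of the sets `a_s b_s = 0` (`IsMap`; for `Y` of dimension `m` this is the
case in general). Nothing else is assumed.

Let `Γ` be a finitely generated subgroup of `𝔖 (K)`, given by finite sets `Γe g` of points of
`E_g (K)` and `Γm` of elements of `K`. The sets `Z` (`Special.locus`) are the translates of
algebraic subgroups of `𝔖` by points of the division hull of `Γ`: the `P_{g,i}` satisfy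
`T ∑_i ρ_i P_{g,i} = T ∑_i ρ_i Q_{g,i}` for all `ρ` in a submodule of `ℤ^(n_g)`, and the `u_j` satisfy
`∏ u_j^(β_j) = ∏ η_j^(β_j)` for all `β` in a submodule of `ℤ^q`; its codimension is the sum of the
ranks. For `Q = 0`, `η = 1` these are, up to finite index, all the algebraic subgroups of `𝔖`, and so
the components of the `Z` are the special subvarieties, if the `E_g` are pairwise not isogenous and
have no complex multiplication. (The theorem is true for all `E_g`.)

The scalings `c_{g,i}` are here `β`-th roots of positive integers and the `c_j` are positive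
integers. If `β` is a large prime number and these integers are spread out (`SpreadE`) then `X_c`
has no atypical intersection with any `Z`: every point of `X_c ∩ Z` has transcendence degree at
most `m - codim Z` over `K`, and every irreducible constructible subset of `X_c ∩ Z` has dimension at
most `m - codim Z`. In particular `X_c ∩ Z` is empty if the codimension of `Z` is larger than `m`, and
no irreducible closed subset of dimension `m` of `X_c` has an atypical subvariety.
The condition holds for all members, with at most `O (√H)` exceptions `k ≤ H`, of the families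
`c_{g,i} ^ β = ∏_l (k + l)^(e l (g,i))`, `c_j = ∏_l (k + l)^(a' l j)` with exponents satisfying
`GoodExp`; for example `e l (g,i) = β + 1 + σ (g,i)` for injective `σ` with values below `β - 1` and
`a' l j = (l + 1)^j`, see `Pool.Agent.W466.EP.goodExp_vandermonde`.
-/

namespace Pool.Agent.Results.MP_dd1803_nt.EllipticScaledImages

open MvPolynomial Pool.Agent.W466.EP Pool.Agent.W282.ZP Pool.Agent.W282.LF

/-- The complex points of `∏_g E_g^(n_g) × G_m^q`, where `E_g = crv (A g) (B g)` is the curve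
`y² = x³ + A_g x + B_g`. -/
structure Amb {r : ℕ} (A B : Fin r → ℂ) (n : Fin r → ℕ) (q : ℕ) where
  P : ∀ g, Fin (n g) → (crv (A g) (B g)).Point
  u : Fin q → ℂˣ

/-- The index set of the coordinates `x (P_{g,i})`, `u_j`. -/
abbrev Ind {r : ℕ} (n : Fin r → ℕ) (q : ℕ) : Type := ((g : Fin r) × Fin (n g)) ⊕ Fin q

variable {r : ℕ} {A B : Fin r → ℂ} {n : Fin r → ℕ} {q : ℕ}

/-- The coordinates `x (P_{g,i})` (which is `0` by definition if `P_{g,i}` is the origin) and
`u_j`. -/
noncomputable def coords (z : Amb A B n q) : Ind n q → ℂ :=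
  Sum.elim (fun i => xx (z.P i.1 i.2)) (fun j => (z.u j : ℂ))

/-- The value of a form. -/
noncomputable def ev {K : Subfield ℂ} {N : ℕ} (y : Fin (N + 1) → ℂ)
    (P : MvPolynomial (Fin (N + 1)) K) : ℂ :=
  aeval y P

/-- `y` is a vector of homogeneous coordinates of a point of the projective algebraic set `Y` defined
by the forms `G l`. -/
def OnY {K : Subfield ℂ} {N : ℕ} {κ : Type*} (G : κ → MvPolynomial (Fin (N + 1)) K)
    (y : Fin (N + 1) → ℂ) : Prop :=
  y ≠ 0 ∧ ∀ l, ev y (G l) = 0

/-- The set `X_c`. -/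
def scaled {K : Subfield ℂ} {N : ℕ} {κ : Type*} (G : κ → MvPolynomial (Fin (N + 1)) K)
    (a b : Ind n q → MvPolynomial (Fin (N + 1)) K) (c : Ind n q → ℂ) : Set (Amb A B n q) :=
  {z | ∃ y, OnY G y ∧
    (∀ i : (g : Fin r) × Fin (n g), (z.P i.1 i.2 = 0 ∧ ev y (b (Sum.inl i)) = 0) ∨
      (z.P i.1 i.2 ≠ 0 ∧
        c (Sum.inl i) * ev y (b (Sum.inl i)) * xx (z.P i.1 i.2) = ev y (a (Sum.inl i)))) ∧
    ∀ j : Fin q, c (Sum.inr j) * ev y (b (Sum.inr j)) * (z.u j : ℂ) = ev y (a (Sum.inr j))}

/-- The translate of an algebraic subgroup by a point of the division hull of `Γ`: the relations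
`relE g` between the `P_{g,i}`, with torsion of order `T`, the relations `relm` between the `u_j`, and
the point `(ptE, ptm)` of the division hull of the group generated by `Γe` and `Γm`. -/
structure Special (Γe : ∀ g, Finset (crv (A g) (B g)).Point) (n : Fin r → ℕ) (q : ℕ)
    (Γm : Finset ℂˣ) where
  T : ℕ
  T0 : 0 < T
  relE : ∀ g, Submodule ℤ (Fin (n g) → ℤ)
  ptE : ∀ g, Fin (n g) → (crv (A g) (B g)).Point
  hullE : ∀ g i, ∃ t : ℕ, 0 < t ∧
    t • ptE g i ∈ AddSubgroup.closure (Γe g : Set (crv (A g) (B g)).Point)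
  relm : Submodule ℤ (Fin q → ℤ)
  ptm : Fin q → ℂˣ
  hullm : ∀ j, ∃ t : ℕ, 0 < t ∧ ptm j ^ t ∈ Subgroup.closure (Γm : Set ℂˣ)

/-- The points of `Z`. -/
def Special.locus {Γe : ∀ g, Finset (crv (A g) (B g)).Point} {Γm : Finset ℂˣ}
    (Z : Special Γe n q Γm) : Set (Amb A B n q) :=
  {z | (∀ g, ∀ ρ ∈ Z.relE g, Z.T • ∑ i, ρ i • z.P g i = Z.T • ∑ i, ρ i • Z.ptE g i) ∧
    ∀ β ∈ Z.relm, ∏ j, z.u j ^ β j = ∏ j, Z.ptm j ^ β j}

/-- The codimension of `Z`. -/
noncomputable def Special.codim {Γe : ∀ g, Finset (crv (A g) (B g)).Point} {Γm : Finset ℂˣ}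
    (Z : Special Γe n q Γm) : ℕ :=
  ∑ g, Module.finrank ℤ (Z.relE g) + Module.finrank ℤ Z.relm

/-- `V` has no intersection of dimension larger than `m - codim Z` with the sets `Z`: every point
of `V ∩ Z` has transcendence degree at most `m - codim Z` over `K`, and every irreducible closed
set `W` of vectors, such that those outside of some hypersurface `f = 0`, which does not contain
`W`, are vectors of coordinates (numbered in any way) of points of `V ∩ Z`, has dimension at most
`m - codim Z`. -/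
def NoAtypical (K : Subfield ℂ) (Γe : ∀ g, Finset (crv (A g) (B g)).Point) (Γm : Finset ℂˣ)
    (m : ℕ) (V : Set (Amb A B n q)) : Prop :=
  ∀ Z : Special Γe n q Γm,
    (∀ z ∈ V ∩ Z.locus, ∀ S : Finset (Ind n q),
      AlgebraicIndependent K (fun s : S => coords z s) → S.card + Z.codim ≤ m) ∧
    ∀ (s : ℕ) (ε : Fin s ≃ Ind n q) (W : Set (Fin s → ℂ)) (f : MvPolynomial (Fin s) ℂ),
      (∀ w ∈ W, eval w f ≠ 0 → ∃ z ∈ V ∩ Z.locus, ∀ i, w i = coords z (ε i)) →
      zcl W ⊆ W → (idealOf W).IsPrime → f ∉ idealOf W →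
      zdim W + (Z.codim : Cardinal) ≤ (m : Cardinal)

/-- The data of the projective set `Y` with its map: no point of `Y` lies on `m + 1` of the divisors
`a_s b_s = 0`. -/
structure IsMap {K : Subfield ℂ} {N : ℕ} {κ : Type*} (G : κ → MvPolynomial (Fin (N + 1)) K)
    (a b : Ind n q → MvPolynomial (Fin (N + 1)) K) (dg : Ind n q → ℕ) (m : ℕ) : Prop where
  hG : ∀ l, ∃ e, (G l).IsHomogeneous e
  ha : ∀ i, (a i).IsHomogeneous (dg i)
  hb : ∀ i, (b i).IsHomogeneous (dg i)
  hpos : ∀ I : Finset (Ind n q), I.card = m + 1 → ∀ y, OnY G y →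
    ∃ i ∈ I, ev y (a i) * ev y (b i) ≠ 0

/-- The scalings `c_{g,i}` are `β`-th roots of the natural numbers `Nn`, and the `c_j` are the
natural numbers `d j`. -/
def IsScaling (β : ℕ) (c : Ind n q → ℂ) (Nn : (g : Fin r) × Fin (n g) → ℕ) (d : Fin q → ℕ) :
    Prop :=
  (∀ i, c (Sum.inl i) ^ β = (Nn i : ℂ)) ∧ ∀ j, c (Sum.inr j) = (d j : ℂ)

/-- The number `∏_l (k + l)^(e l i)`. -/
def fam {L : ℕ} {ι : Type} (e : Fin L → ι → ℕ) (k : ℕ) (i : ι) : ℕ :=
  ∏ l : Fin L, (k + (l : ℕ)) ^ e l i

/-- Zilber-Pink and Mordell-Lang with no atypical intersections for all sufficiently spread out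
scalings of a projective algebraic set mapped to `∏_g E_g^(n_g) × G_m^q`, in particular for all but
few members of natural one-parameter families. -/
theorem result {κ : Type*} (K : Subfield ℂ) [Countable K] (N r q m : ℕ) (A B : Fin r → ℂ)
    (hA : ∀ g, A g ∈ K) (hB : ∀ g, B g ∈ K) (n : Fin r → ℕ)
    (G : κ → MvPolynomial (Fin (N + 1)) K) (a b : Ind n q → MvPolynomial (Fin (N + 1)) K)
    (dg : Ind n q → ℕ) (hY : IsMap G a b dg m)
    (Γe : ∀ g, Finset (crv (A g) (B g)).Point) (hΓe : ∀ g, ∀ P ∈ Γe g, Rat K P)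
    (Γm : Finset ℂˣ) (hΓm : ∀ γ ∈ Γm, (γ : ℂ) ∈ K) :
    ∃ (M D : ℕ) (C : ℝ), ∀ β : ℕ, β.Prime → M < β →
      (∀ (c : Ind n q → ℂ) (Nn : (g : Fin r) × Fin (n g) → ℕ) (d : Fin q → ℕ),
        IsScaling β c Nn d → SpreadE q D β Nn d →
          NoAtypical K Γe Γm m (scaled (A := A) (B := B) G a b c)) ∧
      ∀ (e : Fin ((q - 1) * 2 ^ q + 1) → (g : Fin r) × Fin (n g) → ℕ)
        (a' : Fin ((q - 1) * 2 ^ q + 1) → Fin q → ℕ), GoodExp q β e a' →
        ∀ H : ℕ, (Set.ncard {k : ℕ | 1 ≤ k ∧ k ≤ H ∧ ¬ ∀ c : Ind n q → ℂ,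
          IsScaling β c (fam e k) (fam a' k) →
            NoAtypical K Γe Γm m (scaled (A := A) (B := B) G a b c)} : ℝ) ≤ C * √H := by
  classical
  -- the finite set of constants
  let cpt : ∀ {A B : ℂ}, (crv A B).Point → Finset ℂ := fun P => match P with
    | .zero => ∅
    | .some x y _ => {x, y}
  let Γ : Finset ℂ := Finset.univ.image A ∪ Finset.univ.image B ∪
    Finset.univ.biUnion (fun g => (Γe g).biUnion (fun P => cpt P)) ∪
    (Γm.image (fun γ : ℂˣ => (γ : ℂ)) ∪ Γm.image (fun γ : ℂˣ => ((γ⁻¹ : ℂˣ) : ℂ)))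
  have hAΓ : ∀ g, A g ∈ Γ := fun g => Finset.mem_union_left _ (Finset.mem_union_left _
    (Finset.mem_union_left _ (Finset.mem_image_of_mem A (Finset.mem_univ g))))
  have hBΓ : ∀ g, B g ∈ Γ := fun g => Finset.mem_union_left _ (Finset.mem_union_left _
    (Finset.mem_union_right _ (Finset.mem_image_of_mem B (Finset.mem_univ g))))
  have heΓ : ∀ g, ∀ P ∈ Γe g, ∀ z ∈ cpt P, z ∈ Γ := fun g P hP z hz =>
    Finset.mem_union_left _ (Finset.mem_union_right _ (Finset.mem_biUnion.2
      ⟨g, Finset.mem_univ g, Finset.mem_biUnion.2 ⟨P, hP, hz⟩⟩))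
  have hmΓ : ∀ γ ∈ Γm, (γ : ℂ) ∈ Γ ∧ ((γ⁻¹ : ℂˣ) : ℂ) ∈ Γ := fun γ hγ =>
    ⟨Finset.mem_union_right _ (Finset.mem_union_left _
      (Finset.mem_image_of_mem (fun γ : ℂˣ => (γ : ℂ)) hγ)),
      Finset.mem_union_right _ (Finset.mem_union_right _
      (Finset.mem_image_of_mem (fun γ : ℂˣ => ((γ⁻¹ : ℂˣ) : ℂ)) hγ))⟩
  have hΓK : ∀ γ ∈ Γ, γ ∈ K := by
    intro γ hγ
    rcases Finset.mem_union.1 hγ with h | h
    · rcases Finset.mem_union.1 h with h | h
      · rcases Finset.mem_union.1 h with h | h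
        · obtain ⟨g, -, rfl⟩ := Finset.mem_image.1 h
          exact hA g
        · obtain ⟨g, -, rfl⟩ := Finset.mem_image.1 h
          exact hB g
      · obtain ⟨g, -, h2⟩ := Finset.mem_biUnion.1 h
        obtain ⟨P, hP, h3⟩ := Finset.mem_biUnion.1 h2
        have h4 := hΓe g P hP
        rcases P with _ | ⟨x, y, hn⟩
        · exact absurd h3 (Finset.notMem_empty γ)
        · obtain ⟨hx, hy⟩ := h4
          rcases Finset.mem_insert.1 h3 with h5 | h5
          · rw [h5]
            exact hx
          · rw [Finset.mem_singleton.1 h5]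
            exact hy
    · rcases Finset.mem_union.1 h with h | h
      · obtain ⟨γ', hγ', rfl⟩ := Finset.mem_image.1 h
        exact hΓm γ' hγ'
      · obtain ⟨γ', hγ', rfl⟩ := Finset.mem_image.1 h
        rw [Units.val_inv_eq_inv_val]
        exact K.inv_mem (hΓm γ' hγ')
  have hratΓ : ∀ g, ∀ P ∈ (Γe g : Set (crv (A g) (B g)).Point),
      Rat (Subfield.closure (Γ : Set ℂ)) P := by
    intro g P hP
    have h1 := heΓ g P hP
    rcases P with _ | ⟨x, y, hn⟩
    · trivial
    · exact ⟨Subfield.subset_closure (h1 x (Finset.mem_insert_self x {y})),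
        Subfield.subset_closure (h1 y (Finset.mem_insert_of_mem (Finset.mem_singleton_self y)))⟩
  have hAcl : ∀ g, A g ∈ Subfield.closure (Γ : Set ℂ) := fun g =>
    Subfield.subset_closure (hAΓ g)
  obtain ⟨M, D, hD⟩ := mainEK K (m := m) G hY.hG a b dg hY.ha hY.hb
    (by
      intro I hI y hyG hyI
      by_contra hy0
      obtain ⟨i, hi, h1⟩ := hY.hpos I hI y ⟨hy0, hyG⟩
      exact h1 (hyI i hi)) Γ hΓK A B hAΓ hBΓ
  obtain ⟨C, hC⟩ := family_count ((g : Fin r) × Fin (n g)) q D
  refine ⟨M, D, C, fun β hβ hMβ => ?_⟩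
  have h1 : ∀ (c : Ind n q → ℂ) (Nn : (g : Fin r) × Fin (n g) → ℕ) (d : Fin q → ℕ),
      IsScaling β c Nn d → SpreadE q D β Nn d →
        NoAtypical K Γe Γm m (scaled (A := A) (B := B) G a b c) := by
    rintro c Nn d ⟨hcN, hcd⟩ hsp Z
    have hpt : ∀ z ∈ scaled (A := A) (B := B) G a b c ∩ Z.locus, ∀ S : Finset (Ind n q),
        AlgebraicIndependent K (fun s : S => coords z s) → S.card + Z.codim ≤ m := by
      rintro z ⟨⟨y, hy, hz1, hz2⟩, hzZ1, hzZ2⟩ S hS
      have h2 := hD β hβ hMβ Nn d hsp (fun i => c (Sum.inl i)) hcN z.P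
        (fun j => (z.u j : ℂ)) y hy.1 hy.2
        (fun i => (hz1 i).imp id fun h => h.2)
        (fun j => by
          have h3 := hz2 j
          rw [hcd] at h3
          exact h3) Z.relE Z.relm
        (by
          intro g ρ hρ
          obtain ⟨t, ht, hR⟩ := divhull_rat (hAcl g) (hratΓ g) (Z.ptE g) (Z.hullE g) ρ
          refine ⟨t * Z.T, Nat.mul_pos ht Z.T0, ?_⟩
          rw [mul_smul, hzZ1 g ρ hρ, smul_comm]
          refine Rat.closure (hAcl g) (s := {t • ∑ i, ρ i • Z.ptE g i}) ?_ _ ?_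
          · rintro P hP
            rw [Set.mem_singleton_iff.1 hP]
            exact hR
          · exact nsmul_mem (AddSubgroup.subset_closure (Set.mem_singleton _)) _)
        (by
          intro b hb V hV
          have h3 := congrArg (Units.val : ℂˣ → ℂ) (hzZ2 b hb)
          have h4 : ∏ j, (z.u j : ℂ) ^ b j = ((∏ j, z.u j ^ b j : ℂˣ) : ℂ) := by
            rw [Units.coe_prod]
            refine Finset.prod_congr rfl fun j _ => ?_
            rw [Units.val_zpow_eq_zpow_val]
          rw [h4, h3]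
          refine divhull_val V (s := (Γm : Set ℂˣ)) (fun γ hγ => ?_) _ Z.hullm b
          have h5 := (ValuationSubring.valuation_le_one_iff V _).2 (hV _ (hmΓ γ hγ).1)
          have h6 := (ValuationSubring.valuation_le_one_iff V _).2 (hV _ (hmΓ γ hγ).2)
          refine le_antisymm h5 ?_
          rw [Units.val_inv_eq_inv_val, map_inv₀] at h6
          have h7 : V.valuation (γ : ℂ) ≠ 0 := (map_ne_zero _).2 γ.ne_zero
          exact (inv_le_one₀ (zero_lt_iff.2 h7)).1 h6) S hS
      rw [add_assoc] at h2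
      exact h2
    refine ⟨hpt, ?_⟩
    intro s ε W f hW hcl hprime hf
    obtain ⟨w, hwW, hfw, T, hT, hdim⟩ := generic_dim_open K W hprime hcl f hf
    obtain ⟨z, hz, hwz⟩ := hW w hwW hfw
    let S : Finset (Ind n q) := T.map ε.toEmbedding
    have hS : AlgebraicIndependent K (fun s : S => coords z s) := by
      let f : S → T := fun s => ⟨ε.symm s, by
        obtain ⟨t, ht, hts⟩ := Finset.mem_map.1 s.2
        have h2 : ε.symm (s : Ind n q) = t := by
          rw [← hts]
          exact ε.symm_apply_apply t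
        rw [h2]
        exact ht⟩
      have hf : Function.Injective f := by
        intro s s' hss
        have h2 := congrArg (Subtype.val : T → Fin _) hss
        exact Subtype.ext (ε.symm.injective h2)
      have h2 := hT.comp f hf
      convert h2 using 1
      funext s
      change coords z s = w (ε.symm s)
      rw [hwz, ε.apply_symm_apply]
    have h2 := hpt z hz S hS
    rw [Finset.card_map] at h2
    calc zdim W + (Z.codim : Cardinal) ≤ (T.card : Cardinal) + (Z.codim : Cardinal) := by gcongr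
      _ = ((T.card + Z.codim : ℕ) : Cardinal) := by push_cast; rfl
      _ ≤ (m : Cardinal) := by exact_mod_cast h2
  refine ⟨h1, ?_⟩
  intro e a' hea H
  refine le_trans ?_ (hC β e a' hea H)
  have hfin : {k : ℕ | 1 ≤ k ∧ k ≤ H ∧ ¬ SpreadE q D β (fam e k) (fam a' k)}.Finite :=
    (Set.finite_Icc 1 H).subset fun k hk => ⟨hk.1, hk.2.1⟩
  have h2 := Set.ncard_le_ncard (s := {k : ℕ | 1 ≤ k ∧ k ≤ H ∧ ¬ ∀ c : Ind n q → ℂ,
          IsScaling β c (fam e k) (fam a' k) →
            NoAtypical K Γe Γm m (scaled (A := A) (B := B) G a b c)}) (by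
    rintro k ⟨hk1, hk2, hk3⟩
    exact ⟨hk1, hk2, fun hs => hk3 fun c hc => h1 c _ _ hc hs⟩) hfin
  exact_mod_cast h2

end Pool.Agent.Results.MP_dd1803_nt.EllipticScaledImages
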