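import Pool.Agent.Y237.HT.Fin

/-!
# MP_dd1803_nt: Zilber-Pink for almost all `S`-unit translates over the preperiodic points and the
points of bounded height: abelian varieties of arbitrary dimension

**Setting.** The ambient variety is `P^n × A^r × G_m^k`, with homogeneous coordinates `y` on `P^n`
and coordinates `w` and `x`. Let `V = zeros ℋ` be an arbitrary algebraic subset over the algebraic
numbers, given by finitely many equations, homogeneous in `y`. So `V` may be any algebraic subset of
`Y × W × G_m^k` for a projective variety `Y` and an affine variety `W`. For a point `P` of `P^n` let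
`V_P ⊂ A^r × G_m^k` be the fibre of `V` over `P`; `FibreDimLE d V P` says that its dimension is at
most `d`: any `d + 1` of the coordinates `w_i, x_j` satisfy a nontrivial algebraic relation on it.

**Special points.** A `System` is a self-map `f = (f_0 : … : f_n)` given by forms of degree `q ≥ 2`
with algebraic coefficients, without common zeros on an algebraic subset of `P^n` (given by the
equations `G`). A point `P` with algebraic coordinates is preperiodic if its orbit remains in this
subset and is finite. If the subset is an abelian variety `Y` over the algebraic numbers, in a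
projectively normal embedding by a symmetric line bundle, and `f` is the multiplication by `2`, then
these are the torsion points of `Y`. `Small` means more generally: preperiodic, or of height at most
`B`. Similarly `SmallTorus` says about a point `η` of the torus that all its coordinates are roots of
unity or algebraic numbers `≠ 0` of absolute logarithmic height at most `B`.

**Theorem.** There is a number `K`, which depends only on `V`, such that for every set of `N` prime
numbers `p_i`, every system `f` and every `B` the following holds. Consider the translates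
`g V` by the elements `g_j = ∏_i p_i ^ e_ij`, `|e_ij| ≤ R`, of the torus. For all but at most
`c (2 R + 1) ^ (k N + k - 1 - t)` of the `(2 R + 1) ^ (k N)` vectors `e` (if `K t < N`) `g V` has
`ExpectedDim`: for all small `P` and all cosets `η T`, `η` small, of algebraic subgroups
`T = {x | x ^ c = 1 for all c in M}` of `G_m^k`, all the irreducible subsets `A` of the fibre of `g V`
over `P` with `x ∈ η T` have at most the expected dimension
`dim A ≤ dim V_P - codim T = dim V_P - rank M`. For `t ≥ k` (`N > K k`) these are 100 % of the `g`,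
and for large `N` the number of exceptions is very small. The primes may be small, and `V` need not
be irreducible.

**Zilber-Pink.** Let `G = Y × G_m^k` with an abelian variety `Y` of any dimension. If all the fibres
`V_P` over torsion points have dimension at most `dim V - dim Y` then this says that `g V` has no
atypical intersection with the torsion cosets `{P} × η T`. For `n = 0` the theorem says that there is
no atypical intersection with the subvarieties `W × η T`. So both kinds of the special subvarieties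
of `Y × G_m^k`, `Y` simple, are covered, and similarly `B + τ` for an abelian subvariety `B`
of an arbitrary abelian variety `W` is the fibre over the torsion point `τ` of `Y = W / B`; so
for `W` with finitely many abelian subvarieties (no multiple isogeny factors) this
gives all the special subvarieties of `W × G_m^k`.

The proof is a combination of the tropical argument for tori, uniformly in families (as in
`EllipticExtensions`), with heights: if `c_1, …, c_s` are nonzero algebraic numbers of bounded
height then for every prime number `p` there is a `p`-adic absolute value of `ℂ` for which all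
`log |c_i|` are bounded (average over the embeddings, the `p`-adic part of the height). For elliptic
curves in `EllipticExtensions` we used instead that torsion points are `v`-adically discrete.
-/

set_option autoImplicit false

namespace Pool.Agent.Results.MP_dd1803_nt.SmallPointFibres

open MvPolynomial
open Pool.Agent.Results.MP_b7926e_nt.NoAtypical (coset idealOf dim)

variable {n r k : ℕ}

/-- The ambient variety `P^n × A^r × G_m^k`. The last coordinates of the points of the subsets
which we consider are different from zero. -/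
abbrev Ambient (n r k : ℕ) : Type :=
  Projectivization ℂ (Fin (n + 1) → ℂ) × (Fin r → ℂ) × (Fin k → ℂ)

/-- Polynomials in the homogeneous coordinates `y_0, …, y_n` of `P^n`, the coordinates
`w_1, …, w_r` of `A^r` and the coordinates `x_1, …, x_k` of `G_m^k`. -/
abbrev Poly (n r k : ℕ) : Type := MvPolynomial (Fin (n + 1) ⊕ (Fin r ⊕ Fin k)) ℂ

/-- `H` is homogeneous in `y_0, …, y_n`. -/
def HomogeneousInY (H : Poly n r k) : Prop :=
  ∃ D : ℕ, H.IsWeightedHomogeneous (Sum.elim (fun _ => 1) (fun _ => 0)) D

/-- The algebraic subset of `P^n × A^r × G_m^k` with the equations `H (y, w, x) = 0`, `H ∈ ℋ`. -/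
def zeros (ℋ : Finset (Poly n r k)) : Set (Ambient n r k) :=
  {h | (∀ j, h.2.2 j ≠ 0) ∧ ∀ H ∈ ℋ, eval (Sum.elim h.1.rep (Sum.elim h.2.1 h.2.2)) H = 0}

/-- The translate of `V` by the element `g` of the torus. -/
def translate (g : Fin k → ℂ) (V : Set (Ambient n r k)) : Set (Ambient n r k) :=
  {h | ∃ h' ∈ V, h.1 = h'.1 ∧ h.2.1 = h'.2.1 ∧ ∀ j, h.2.2 j = g j * h'.2.2 j}

/-- The dimension of the fibre of `V` over `P` is at most `d`: any `d + 1` of the functions
`w_1, …, w_r, x_1, …, x_k` satisfy a nontrivial algebraic relation on this fibre. -/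
def FibreDimLE (d : ℕ) (V : Set (Ambient n r k)) (P : Projectivization ℂ (Fin (n + 1) → ℂ)) :
    Prop :=
  ∀ S : Finset (Fin r ⊕ Fin k), S.card = d + 1 → ∃ F : MvPolynomial S ℂ, F ≠ 0 ∧
    ∀ w x, (P, w, x) ∈ V → eval (fun s : S => Sum.elim w x s) F = 0

/-- A self-map of degree `q ≥ 2` of an algebraic subset of `P^n`, over the algebraic numbers: forms
`f_0, …, f_n` of degree `q` without common zeros on the set of the zeros of the forms in `G`. -/
structure System (n : ℕ) where
  /-- the degree -/
  q : ℕ
  /-- the map -/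
  f : Fin (n + 1) → MvPolynomial (Fin (n + 1)) ℂ
  /-- the equations of the subset -/
  G : Set (MvPolynomial (Fin (n + 1)) ℂ)
  two_le : 2 ≤ q
  f_homogeneous : ∀ j, (f j).IsHomogeneous q
  f_algebraic : ∀ j m, IsAlgebraic ℚ ((f j).coeff m)
  G_homogeneous : ∀ g ∈ G, ∃ D, g.IsHomogeneous D
  G_algebraic : ∀ g ∈ G, ∀ m, IsAlgebraic ℚ (g.coeff m)
  no_common_zero : ∀ z : Fin (n + 1) → ℂ, (∀ g ∈ G, eval z g = 0) →
    (∀ j, eval z (f j) = 0) → z = 0

/-- The map on vectors. -/
noncomputable def System.map (𝔣 : System n) (z : Fin (n + 1) → ℂ) : Fin (n + 1) → ℂ :=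
  fun j => eval z (𝔣.f j)

/-- `P` has algebraic coordinates, its orbit is contained in the algebraic subset `G = 0` and
finite. -/
def System.Preperiodic (𝔣 : System n) (P : Projectivization ℂ (Fin (n + 1) → ℂ)) : Prop :=
  ∃ (z : Fin (n + 1) → ℂ) (hz : z ≠ 0), Projectivization.mk ℂ z hz = P ∧
    (∀ i, IsAlgebraic ℚ (z i)) ∧ (∀ l : ℕ, ∀ g ∈ 𝔣.G, eval (𝔣.map^[l] z) g = 0) ∧
    ∃ i j : ℕ, i < j ∧ ∃ c : ℂ, 𝔣.map^[j] z = c • 𝔣.map^[i] z

/-- `P` has a vector of coordinates, one of them equal to `1`, which are algebraic numbers of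
absolute logarithmic height at most `B`. -/
def HeightLE (B : ℝ) (P : Projectivization ℂ (Fin (n + 1) → ℂ)) : Prop :=
  ∃ (z : Fin (n + 1) → ℂ) (hz : z ≠ 0), Projectivization.mk ℂ z hz = P ∧ (∃ i, z i = 1) ∧
    ∀ i, IsAlgebraic ℚ (z i) ∧ NumberField.absLogHeight₁ (z i) ≤ B

/-- The small points of `P^n`. -/
def Small (𝔣 : System n) (B : ℝ) (P : Projectivization ℂ (Fin (n + 1) → ℂ)) : Prop :=
  𝔣.Preperiodic P ∨ HeightLE B P

/-- The small points of the torus; in particular all torsion points. -/
def SmallTorus (B : ℝ) (η : Fin k → ℂ) : Prop :=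
  ∀ j, (∃ m : ℕ, 0 < m ∧ η j ^ m = 1) ∨
    (η j ≠ 0 ∧ IsAlgebraic ℚ (η j) ∧ NumberField.absLogHeight₁ (η j) ≤ B)

/-- All intersections of `W` with the sets `{P} × A^r × η T`, where `P` and `η` are small and
`T = {x | x ^ c = 1 for all c in M}`, have at most the expected dimension
`dim W_P - codim T = dim W_P - rank M`. -/
def ExpectedDim (𝔣 : System n) (B : ℝ) (W : Set (Ambient n r k)) : Prop :=
  ∀ P, Small 𝔣 B P → ∀ d : ℕ, FibreDimLE d W P →
    ∀ (M : Submodule ℤ (Fin k → ℤ)) (η : Fin k → ℂ), SmallTorus B η →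
      ∀ A : Set (Fin (r + k) → ℂ),
        (∀ z ∈ A, (P, fun i => z (Fin.castAdd k i), fun j => z (Fin.natAdd r j)) ∈ W) →
        (∀ z ∈ A, (fun j => z (Fin.natAdd r j)) ∈ coset M η) → (idealOf A).IsPrime →
          dim A + (Module.finrank ℤ M : Cardinal) ≤ (d : Cardinal)

/-- The equations are invariant under scaling. -/
theorem eval_smul {H : Poly n r k} (hH : HomogeneousInY H) {c : ℂ} (hc : c ≠ 0)
    (z : Fin (n + 1) → ℂ) (u : Fin r ⊕ Fin k → ℂ) :
    eval (Sum.elim (c • z) u) H = 0 ↔ eval (Sum.elim z u) H = 0 := by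
  obtain ⟨D, hD⟩ := hH
  have h1 : eval (Sum.elim (c • z) u) H = c ^ D * eval (Sum.elim z u) H := by
    rw [eval_eq', eval_eq', Finset.mul_sum]
    refine Finset.sum_congr rfl fun m hm => ?_
    have h2 := hD (mem_support_iff.1 hm)
    have h3 : ∑ i, m (Sum.inl i) = D := by
      rw [← h2, Finsupp.weight_apply, Finsupp.sum_fintype _ _ (fun _ => by simp)]
      simp
    simp only [Fintype.prod_sum_type, Sum.elim_inl, Sum.elim_inr, Pi.smul_apply, smul_eq_mul,
      mul_pow]
    rw [Finset.prod_mul_distrib, Finset.prod_pow_eq_pow_sum, h3]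
    ring
  rw [h1]
  constructor
  · intro h
    exact (mul_eq_zero.1 h).resolve_left (pow_ne_zero _ hc)
  · intro h
    rw [h, mul_zero]

/-- Small points have coordinates of bounded height. -/
theorem exists_coords (𝔣 : System n) (B : ℝ) : ∃ C : ℝ, ∀ P, Small 𝔣 B P →
    ∃ (z : Fin (n + 1) → ℂ) (hz : z ≠ 0), Projectivization.mk ℂ z hz = P ∧
      ∀ i, IsAlgebraic ℚ (z i) ∧ NumberField.absLogHeight₁ (z i) ≤ C := by
  obtain ⟨C, hC⟩ := Y237.HT.preper_height 𝔣.two_le 𝔣.f 𝔣.f_homogeneous 𝔣.f_algebraic 𝔣.G
    𝔣.G_homogeneous 𝔣.G_algebraic 𝔣.no_common_zero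
  refine ⟨max B C, fun P hP => ?_⟩
  rcases hP with ⟨z, hz, hzP, hza, hzG, hzp⟩ | ⟨z, hz, hzP, -, hzB⟩
  · obtain ⟨i₀, hi₀⟩ := Function.ne_iff.1 hz
    have hi₀' : z i₀ ≠ 0 := hi₀
    have hne : (z i₀)⁻¹ • z ≠ 0 := smul_ne_zero (inv_ne_zero hi₀') hz
    refine ⟨(z i₀)⁻¹ • z, hne, ?_, fun i => ?_⟩
    · rw [← hzP, Projectivization.mk_eq_mk_iff']
      exact ⟨(z i₀)⁻¹, rfl⟩
    · have h1 : ((z i₀)⁻¹ • z) i = z i / z i₀ := by
        rw [Pi.smul_apply, smul_eq_mul, mul_comm, div_eq_mul_inv]
      rw [h1]
      refine ⟨?_, (hC z hz hza hzG hzp i₀ hi₀' i).trans (le_max_right _ _)⟩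
      rw [div_eq_mul_inv]
      exact (hza i).mul (hza i₀).inv
  · exact ⟨z, hz, hzP, fun i => ⟨(hzB i).1, (hzB i).2.trans (le_max_left _ _)⟩⟩

/-- Zilber-Pink for almost all `S`-unit translates of an arbitrary algebraic set over the
algebraic numbers, over the preperiodic points of a self-map and the points of bounded height. -/
theorem result (n r k : ℕ) (ℋ : Finset (Poly n r k)) (hH : ∀ H ∈ ℋ, HomogeneousInY H)
    (hA : ∀ H ∈ ℋ, ∀ m, IsAlgebraic ℚ (H.coeff m)) :
    ∃ K : ℕ, ∀ N t : ℕ, K * t < N → ∀ (𝔣 : System n) (B : ℝ),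
      ∀ p : Fin N → ℕ, (∀ i, (p i).Prime) → Function.Injective p → ∃ c : ℕ, ∀ R : ℕ, 1 ≤ R →
        Nat.card {e : Fin N → Fin k → ℤ // (∀ i j, |e i j| ≤ R) ∧
          ¬ ExpectedDim 𝔣 B (translate (fun j => ∏ i, (p i : ℂ) ^ e i j) (zeros ℋ))} *
            (2 * R + 1) ^ t ≤ c * (2 * R + 1) ^ (k * N + k - 1) := by
  classical
  obtain ⟨K, hK⟩ := Y237.HT.fin ℋ hA
  refine ⟨K, fun N t hN 𝔣 B p hp hpi => ?_⟩
  obtain ⟨C₀, hC₀⟩ := exists_coords 𝔣 B
  choose z hz hzP hzC using fun P : {P // Small 𝔣 B P} => hC₀ P.1 P.2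
  obtain ⟨c, hc⟩ := hK {P // Small 𝔣 B P} z C₀ hzC N t hN |B| p hp hpi
  refine ⟨c, fun R hR => ?_⟩
  obtain ⟨X, hX, hX'⟩ := hc R hR
  refine le_trans (Nat.mul_le_mul_right _ ?_) hX
  have hEc : Nat.card X = X.card := by rw [Nat.card_eq_fintype_card, Fintype.card_coe]
  rw [← hEc]
  refine Nat.card_le_card_of_injective (fun e => ⟨e.1, ?_⟩) ?_
  · by_contra hcon
    apply e.2.2
    set g : Fin k → ℂ := fun j => ∏ i, (p i : ℂ) ^ e.1 i j with hg
    have hg0 : ∀ j, g j ≠ 0 := fun j => Finset.prod_ne_zero_iff.2 fun l _ =>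
      zpow_ne_zero _ (by exact_mod_cast (hp l).ne_zero)
    intro P hP d hd M η hη A hAW hAη hA
    have hmem : ∀ w x, (w, x) ∈ Y237.HT.fib ℋ (z ⟨P, hP⟩) ↔ (P, w, x) ∈ zeros ℋ := by
      intro w x
      obtain ⟨a, ha⟩ := Projectivization.exists_smul_eq_mk_rep ℂ (z ⟨P, hP⟩) (hz ⟨P, hP⟩)
      rw [hzP ⟨P, hP⟩] at ha
      have ha' : P.rep = (a : ℂ) • z ⟨P, hP⟩ := ha.symm
      refine and_congr Iff.rfl (forall₂_congr fun H hH' => ?_)
      change _ ↔ eval (Sum.elim P.rep (Sum.elim w x)) H = 0
      rw [ha', eval_smul (hH H hH') a.ne_zero]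
    have hpts : ∀ w x, (P, w, x) ∈ translate g (zeros ℋ) →
        (w, fun j => (g j)⁻¹ * x j) ∈ Y237.HT.fib ℋ (z ⟨P, hP⟩) := by
      rintro w x ⟨⟨P', w', x'⟩, hh', h1, h2, h3⟩
      have h1' : P = P' := h1
      have h2' : w = w' := h2
      subst h1' h2'
      have h4 : (fun j => (g j)⁻¹ * x j) = x' := by
        funext j
        have h5 : x j = g j * x' j := h3 j
        rw [h5, inv_mul_cancel_left₀ (hg0 j)]
      rw [h4]
      exact (hmem _ _).2 hh'
    refine hX' e.1 e.2.1 hcon ⟨P, hP⟩ d ?_ M η ?_ A ?_ ?_ hA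
    · -- the dimension of the fibre
      intro S hS
      obtain ⟨F, hF0, hF⟩ := hd S hS
      let s : S → ℂ := fun s => Sum.elim (fun _ => 1) g (s : Fin r ⊕ Fin k)
      have hs : ∀ i, s i ≠ 0 := by
        rintro ⟨i | j, h⟩
        · exact one_ne_zero
        · exact hg0 j
      let F' : MvPolynomial S ℂ := aeval (fun i => C (s i) * MvPolynomial.X i) F
      have hF' : ∀ y, eval y F' = eval (fun i => s i * y i) F := by
        intro y
        have h1 : (aeval y : MvPolynomial S ℂ →ₐ[ℂ] ℂ).comp
            (aeval (fun i => C (s i) * MvPolynomial.X i)) = aeval (fun i => s i * y i) := by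
          ext i
          simp
        rw [← aeval_eq_eval, ← aeval_eq_eval]
        exact DFunLike.congr_fun h1 F
      refine ⟨F', fun h0 => hF0 ?_, fun w x hwx => ?_⟩
      · apply MvPolynomial.funext
        intro y
        have h1 := hF' (fun i => (s i)⁻¹ * y i)
        rw [h0, map_zero] at h1
        rw [map_zero, h1]
        congr 2
        funext i
        rw [mul_inv_cancel_left₀ (hs i)]
      · rw [hF']
        have h1 := hF w (fun j => g j * x j) ⟨(P, w, x), (hmem w x).1 hwx, rfl, rfl, fun j => rfl⟩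
        rw [← h1]
        congr 2
        funext i
        rcases i with ⟨i | j, h⟩
        · exact one_mul _
        · rfl
    · intro j
      rcases hη j with ⟨m, hm, h1⟩ | ⟨h1, h2, h3⟩
      · refine ⟨?_, ?_⟩
        · rintro h0
          rw [h0, zero_pow hm.ne'] at h1
          exact zero_ne_one h1
        · obtain ⟨h2, h3⟩ := Y237.HT.abs_root_of_unity hm h1
          exact ⟨h2, h3.le.trans (abs_nonneg B)⟩
      · exact ⟨h1, h2, h3.trans (le_abs_self B)⟩
    · intro y hy
      exact hpts _ _ (hAW y hy)
    · rintro _ ⟨y, hy, rfl⟩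
      exact hAη y hy
  · intro e e' hee
    exact Subtype.ext (congrArg (fun z : X => (z : Fin N → Fin k → ℤ)) hee)

end Pool.Agent.Results.MP_dd1803_nt.SmallPointFibres
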