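import Pool.Agent.Y226.ZW.Arith

/-!
# MP_dd1803_nt: explicit and uniform Zilber-Pink for all rational curves in `Y(1)^n` with good reduction
# after a dilation

`Y(1)^n` is identified with `ℂ^n` by the elliptic modular function `jj = j = E₄³ / Δ`. A special
subvariety of `Y(1)^n` of dimension `r` is given by a `SpecialVariety`: its points are the points
`x` with `x_i = const_i` for the constant coordinates, and `x_i = j (g_i z_l)` for the coordinates of
class `l`, `z_1, …, z_r` free in the upper half plane and `g_i` a fixed integral matrix of positive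
determinant. In the definition of special subvarieties the constants are values of `j` at CM points
(solutions of `Φ_N (x_i, x_i) = 0`). We allow also all constants which are integral over the ring
generated by a finite set `Γ` of algebraic numbers.

Let `K` be a number field, `v` a prime ideal of `K` above the prime number `p`. We consider rational
functions `f_i = a_i / b_i` (`i = 1, …, n`), given by polynomials `a_i, b_i` of degree at most `D_i`
with `v`-integral coefficients. The condition `GoodReduction` says that all `f_i` have good reduction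
at `v`: the reductions modulo `v` of the forms `a_i (s, t)`, `b_i (s, t)` of degree `D_i` have no
common zero on the projective line (`resultant_self`), and that the zeros and poles of the reduction
of `f_i` are different from those of the reduction of `f_j` for `i ≠ j` (`resultant_pair`).
(`resultant a b m n` is the resultant of the forms of degrees `m` and `n`.)

Let `lam_i` be elements of `K` with `v (lam_i) = - e`, `e > 0`, and let `V` be the rational curve in
`Y(1)^n` with the parametrization `x_i = lam_i f_i` (`curve`; the parameter `∞` is included, poles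
of the functions `f_i` are excluded). The set of these curves is open in the `v`-adic topology on
the space of the rational curves with given degrees `D_i`.

Theorem: let `p > 16 (d + 1)^4` and `D_i ≤ d`. For all number fields `K`, all primes `v` of `K` above
`p` which are unramified over `p`, all `f_i` and `lam_i` as above, and all `Γ` which are integral at
`p`,

* `V` has at most `9 n ^ 4 d ^ 2 p ^ 2` points which are on special subvarieties of codimension at
  least two (the atypical intersections). This number does not depend on `K` and `v`. For the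
  smallest prime `p > 16 (d + 1)^4` it is at most `9216 n ^ 4 (d + 1) ^ 10` by Bertrand's postulate,
* all these points are on the special subvarieties defined by an isogeny of degree at most
  `p ^ (17 f d p)` between two of the coordinates, where `p ^ f` is the number of the residue classes
  of `v`. So one explicit finite set of proper special subvarieties of `Y(1)^n` covers the atypical
  subvarieties of all the curves `V`, for all `K` and `v` with given `f`,
* `V` is not contained in a proper special subvariety.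
-/

namespace Pool.Agent.Results.MP_dd1803_nt.UniformRationalCurves

open H294ZP Polynomial UpperHalfPlane IsDedekindDomain NumberField

/-- A special subvariety of dimension `r` of `Y(1)^n`. The constant coordinates are those with
`cls i = none`. The allowed constants are the singular moduli and the numbers which are integral
over the ring generated by `Γ`. -/
structure SpecialVariety (Γ : Set ℂ) (n r : ℕ) where
  cls : Fin n → Option (Fin r)
  surj : ∀ l : Fin r, ∃ i, cls i = some l
  mat : Fin n → Matrix (Fin 2) (Fin 2) ℤ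
  det_pos : ∀ i, 0 < (mat i).det
  const : Fin n → ℂ
  allowed : ∀ i, (∃ τ : ℍ, IsCM τ ∧ const i = jj τ) ∨ IsIntegral (Algebra.adjoin ℤ Γ) (const i)

/-- The points of a special subvariety of `Y(1)^n`. -/
def SpecialVariety.locus {Γ : Set ℂ} {n r : ℕ} (Z : SpecialVariety Γ n r) : Set (Fin n → ℂ) :=
  {x | ∃ z : Fin r → ℍ, ∀ i, (Z.cls i = none → x i = Z.const i) ∧
    ∀ l, Z.cls i = some l → ∃ w : ℍ,
      (w : ℂ) * (Z.mat i 1 0 * z l + Z.mat i 1 1) = Z.mat i 0 0 * z l + Z.mat i 0 1 ∧
      x i = jj w}

/-- The value at `(s, t)` of the form of degree `D` defined by the polynomial `P`. -/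
noncomputable def form {K : Type} [Field K] (σ : K →+* ℂ) (D : ℕ) (P : K[X]) (s t : ℂ) : ℂ :=
  ∑ m ∈ Finset.range (D + 1), σ (P.coeff m) * s ^ m * t ^ (D - m)

/-- The rational curve with the parametrization `x_i = lam_i a_i (s, t) / b_i (s, t)`. -/
def curve {K : Type} [Field K] (σ : K →+* ℂ) {n : ℕ} (D : Fin n → ℕ) (lam : Fin n → K)
    (a b : Fin n → K[X]) : Set (Fin n → ℂ) :=
  {x | ∃ s t : ℂ, (s ≠ 0 ∨ t ≠ 0) ∧ ∀ i, form σ (D i) (b i) s t * x i =
    σ (lam i) * form σ (D i) (a i) s t}

/-- The functions `a_i / b_i` have good reduction at `v`, and the reductions have different zeros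
and poles. -/
structure GoodReduction {K : Type} [Field K] [NumberField K] (v : HeightOneSpectrum (𝓞 K)) {n : ℕ}
    (D : Fin n → ℕ) (a b : Fin n → K[X]) : Prop where
  degree_a : ∀ i, (a i).natDegree ≤ D i
  degree_b : ∀ i, (b i).natDegree ≤ D i
  integral_a : ∀ i m, v.valuation K ((a i).coeff m) ≤ 1
  integral_b : ∀ i m, v.valuation K ((b i).coeff m) ≤ 1
  resultant_self : ∀ i, v.valuation K (resultant (a i) (b i) (D i) (D i)) = 1
  resultant_pair : ∀ i j, i ≠ j →
    v.valuation K (resultant (a i * b i) (a j * b j) (D i + D i) (D j + D j)) = 1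

/-- The points of `S` on special subvarieties of codimension at least two. -/
def atypical (Γ : Set ℂ) {n : ℕ} (S : Set (Fin n → ℂ)) : Set (Fin n → ℂ) :=
  {x | x ∈ S ∧ ∃ (r : ℕ) (Z : SpecialVariety Γ n r), r + 2 ≤ n ∧ x ∈ Z.locus}

/-- `x` and `x'` are the `j`-invariants of elliptic curves which are connected by an isogeny of
degree `N`. -/
def Isogenous (N : ℕ) (x x' : ℂ) : Prop :=
  ∃ (τ τ' : ℍ) (g : Matrix (Fin 2) (Fin 2) ℤ), g.det = N ∧
    (τ' : ℂ) * (g 1 0 * τ + g 1 1) = g 0 0 * τ + g 0 1 ∧ x = jj τ ∧ x' = jj τ'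

/-- Special subvarieties in the form used in the proof. -/
def SpecialVariety.toSV {Γ : Set ℂ} {n r : ℕ} (Z : SpecialVariety Γ n r) :
    Pool.Agent.Y226.ZM.SV Γ n r where
  cls := Z.cls
  mat := Z.mat
  det_pos := Z.det_pos
  const := Z.const
  int := fun i => by
    rcases Z.allowed i with ⟨τ, hτ, h⟩ | h
    · rw [h]
      exact (singular_modulus_integral τ hτ).tower_top
    · exact h

theorem result (n d p f : ℕ) (hp : p.Prime) (hpd : 16 * (d + 1) ^ 4 < p)
    (K : Type) [Field K] [NumberField K] (σ : K →+* ℂ) (v : HeightOneSpectrum (𝓞 K))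
    (hpv : (p : 𝓞 K) ∈ v.asIdeal) (hpv2 : (p : 𝓞 K) ∉ v.asIdeal ^ 2)
    (hf : Nat.card (𝓞 K ⧸ v.asIdeal) = p ^ f) (D : Fin n → ℕ) (a b : Fin n → K[X])
    (hD : ∀ i, 0 < D i ∧ D i ≤ d) (hgood : GoodReduction v D a b) (lam : Fin n → K) (e : ℕ)
    (he : 0 < e) (hlam : ∀ i, v.valuation K (lam i) = WithZero.exp (e : ℤ)) (Γ : Finset ℂ)
    (hΓ : ∀ γ ∈ Γ, ∃ m : ℕ, ¬ p ∣ m ∧ IsIntegral ℤ ((m : ℂ) * γ)) :
    (atypical Γ (curve σ D lam a b)).Finite ∧
    (atypical Γ (curve σ D lam a b)).ncard ≤ 9 * n ^ 4 * d ^ 2 * p ^ 2 ∧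
    (∀ x ∈ atypical Γ (curve σ D lam a b), ∃ j l : Fin n, j ≠ l ∧
      ∃ N : ℕ, 0 < N ∧ N ≤ p ^ (17 * f * d * p) ∧ Isogenous N (x j) (x l)) ∧
    ∀ (r : ℕ) (Z : SpecialVariety Γ n r), r < n → ¬ curve σ D lam a b ⊆ Z.locus := by
  have hf0 : 0 < f := by
    rcases Nat.eq_zero_or_pos f with h0 | h0
    · exfalso
      rw [h0, pow_zero, Nat.card_eq_one_iff_unique] at hf
      haveI := hf.1
      exact v.isPrime.ne_top (Ideal.Quotient.subsingleton_iff.1 inferInstance)
    · exact h0
  obtain ⟨h1, h2, h3, h4⟩ := Pool.Agent.Y226.ZR.main_nf_e n d p f hp hpd hf0 K σ v hpv hpv2 hf D a b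
    hD hgood.degree_a hgood.degree_b hgood.integral_a hgood.integral_b hgood.resultant_self
    hgood.resultant_pair Γ hΓ lam e he hlam
  have hsub : atypical Γ (curve σ D lam a b) ⊆
      {x | x ∈ Pool.Agent.Y226.ZR.crvK σ D lam a b ∧
        ∃ (r : ℕ) (Z : Pool.Agent.Y226.ZM.SV (Γ : Set ℂ) n r), r + 2 ≤ n ∧ x ∈ Z.locus} := by
    rintro x ⟨hx, r, Z, hr, hZ⟩
    exact ⟨hx, r, Z.toSV, hr, hZ⟩
  refine ⟨h2.subset hsub, ?_, ?_, ?_⟩
  · rcases Nat.eq_zero_or_pos n with hn | hn
    · have hempty : atypical Γ (curve σ D lam a b) = ∅ := by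
        refine Set.eq_empty_iff_forall_notMem.2 ?_
        rintro x ⟨-, r, -, hr, -⟩
        omega
      rw [hempty, Set.ncard_empty]
      exact Nat.zero_le _
    · have hd : 0 < d := (hD ⟨0, hn⟩).1.trans_le (hD ⟨0, hn⟩).2
      exact ((Set.ncard_le_ncard hsub h2).trans h3).trans (Pool.Agent.Y226.ZW.mN_le hn hd hpd)
  · rintro x ⟨hx, r, Z, hr, hZ⟩
    obtain ⟨j, l, hjl, N, hN0, hN, τ, τ', a, b, c, d', hdet, hτ, hxj, hxl⟩ :=
      h1 x hx r Z.toSV hr hZ
    have hd : 0 < d := (hD j).1.trans_le (hD j).2
    refine ⟨j, l, hjl, N, hN0, hN.trans (Pool.Agent.Y226.ZW.bN_le hpd hf0 hd), τ, τ',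
      !![a, b; c, d'], ?_, ?_, hxj, hxl⟩
    · rw [Matrix.det_fin_two_of]
      exact hdet
    · simpa using hτ
  · intro r Z hr hsub'
    exact h4 r Z.toSV hr hsub'

end Pool.Agent.Results.MP_dd1803_nt.UniformRationalCurves
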